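import Pool.Agent.helper54.V3.SpecE

/-!
# Project v3: FPOL, the numerator
-/

set_option autoImplicit false

open Complex Metric Set Filter Topology MeasureTheory

noncomputable section

namespace V3

/-- the first part of the numerator -/
def FPOL_S (Pf : Finset ℂ) (g : ℂ → ℂ) : Polynomial ℂ :=
  ∑ p ∈ Pf, (1 + Polynomial.C (g p) * (Polynomial.X - Polynomial.C p)) *
    ∏ p' ∈ Pf.erase p, (Polynomial.X - Polynomial.C p') ^ 2

/-- the denominator -/
def FPOL_M (Pf : Finset ℂ) : Polynomial ℂ := ∏ p ∈ Pf, (Polynomial.X - Polynomial.C p) ^ 2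

theorem FPOL_Mmonic (Pf : Finset ℂ) : (FPOL_M Pf).Monic := by
  unfold FPOL_M
  exact Polynomial.monic_prod_of_monic _ _ fun p _ => (Polynomial.monic_X_sub_C p).pow 2

theorem FPOL_Mdeg (Pf : Finset ℂ) : (FPOL_M Pf).natDegree = 2 * Pf.card := by
  unfold FPOL_M
  rw [Polynomial.natDegree_prod_of_monic _ _ fun p _ => (Polynomial.monic_X_sub_C p).pow 2]
  simp only [Polynomial.natDegree_pow, Polynomial.natDegree_X_sub_C, mul_one, Finset.sum_const,
    smul_eq_mul]
  ring

theorem FPOL_Sdeg (Pf : Finset ℂ) (g : ℂ → ℂ) (hne : Pf.Nonempty) :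
    (FPOL_S Pf g).natDegree < 2 * Pf.card := by
  have hcard : 1 ≤ Pf.card := hne.card_pos
  have h1 : (FPOL_S Pf g).natDegree ≤ 2 * Pf.card - 1 := by
    unfold FPOL_S
    refine Polynomial.natDegree_sum_le_of_forall_le _ _ fun p hp => ?_
    refine Polynomial.natDegree_mul_le.trans ?_
    have h2 : (1 + Polynomial.C (g p) * (Polynomial.X - Polynomial.C p)).natDegree ≤ 1 := by
      refine (Polynomial.natDegree_add_le _ _).trans ?_
      rw [Polynomial.natDegree_one]
      refine max_le (by omega) ?_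
      refine (Polynomial.natDegree_C_mul_le _ _).trans ?_
      rw [Polynomial.natDegree_X_sub_C]
    have h3 : (∏ p' ∈ Pf.erase p, (Polynomial.X - Polynomial.C p') ^ 2).natDegree =
        2 * (Pf.card - 1) := by
      have h4 := FPOL_Mdeg (Pf.erase p)
      rw [Finset.card_erase_of_mem hp] at h4
      exact h4
    rw [h3]
    omega
  omega

theorem FPOL : FPOL_stmt := by
  intro Pf g a c hne
  refine ⟨FPOL_S Pf g + (Polynomial.C a + Polynomial.C c * Polynomial.X) * FPOL_M Pf, ?_, ?_, ?_⟩
  · intro x hx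
    have hxp : ∀ p ∈ Pf, x - p ≠ 0 := fun p hp h => hx (by rw [sub_eq_zero.1 h]; exact hp)
    unfold FPOL_S FPOL_M
    rw [add_mul, Polynomial.eval_add, Polynomial.eval_mul]
    simp only [Polynomial.eval_finsetSum, Polynomial.eval_mul, Polynomial.eval_prod,
      Polynomial.eval_add, Polynomial.eval_one, Polynomial.eval_C, Polynomial.eval_sub,
      Polynomial.eval_X, Polynomial.eval_pow]
    rw [show (∑ p ∈ Pf, (1 / (x - p) ^ 2 + g p / (x - p)) + a) * ∏ p ∈ Pf, (x - p) ^ 2 +
        c * x * ∏ p ∈ Pf, (x - p) ^ 2 =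
        (∑ p ∈ Pf, (1 / (x - p) ^ 2 + g p / (x - p))) * ∏ p ∈ Pf, (x - p) ^ 2 +
        (a + c * x) * ∏ p ∈ Pf, (x - p) ^ 2 by ring]
    congr 1
    rw [Finset.sum_mul]
    refine Finset.sum_congr rfl fun p hp => ?_
    rw [← Finset.mul_prod_erase Pf _ hp]
    have := hxp p hp
    field_simp
  · intro p hp
    unfold FPOL_S FPOL_M
    rw [Polynomial.eval_add, Polynomial.eval_mul]
    simp only [Polynomial.eval_finsetSum, Polynomial.eval_mul, Polynomial.eval_prod,
      Polynomial.eval_add, Polynomial.eval_one, Polynomial.eval_C, Polynomial.eval_sub,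
      Polynomial.eval_X, Polynomial.eval_pow]
    have h1 : ∏ p' ∈ Pf, (p - p') ^ 2 = 0 := Finset.prod_eq_zero hp (by ring)
    have h2 : ∑ p'' ∈ Pf, (1 + g p'' * (p - p'')) * ∏ p' ∈ Pf.erase p'', (p - p') ^ 2 =
        ∏ p' ∈ Pf.erase p, (p - p') ^ 2 := by
      rw [Finset.sum_eq_single_of_mem p hp]
      · rw [sub_self, mul_zero, add_zero, one_mul]
      · intro p'' _ hne'
        rw [Finset.prod_eq_zero (Finset.mem_erase.2 ⟨hne'.symm, hp⟩) (by ring), mul_zero]
    rw [h1, h2, mul_zero, add_zero]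
    refine Finset.prod_ne_zero_iff.2 fun p' hp' => pow_ne_zero 2 ?_
    exact sub_ne_zero.2 (Finset.mem_erase.1 hp').1.symm
  · intro hac
    have hL : Polynomial.C a + Polynomial.C c * Polynomial.X ≠ 0 := by
      intro h
      rcases hac with h1 | h1
      · have h2 := congrArg (fun P => Polynomial.coeff P 1) h
        simp only [Polynomial.coeff_add, Polynomial.coeff_C_mul, Polynomial.coeff_X_one,
          Polynomial.coeff_zero, Polynomial.coeff_C_of_ne_zero one_ne_zero] at h2
        apply h1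
        simpa using h2
      · have h2 := congrArg (fun P => Polynomial.coeff P 0) h
        simp only [Polynomial.coeff_add, Polynomial.coeff_C_mul, Polynomial.coeff_X_zero,
          Polynomial.coeff_zero, Polynomial.coeff_C_zero] at h2
        apply h1
        simpa using h2
    have hM := FPOL_Mmonic Pf
    have hdeg : ((Polynomial.C a + Polynomial.C c * Polynomial.X) * FPOL_M Pf).natDegree =
        (Polynomial.C a + Polynomial.C c * Polynomial.X).natDegree + 2 * Pf.card := by
      rw [Polynomial.natDegree_mul hL hM.ne_zero, FPOL_Mdeg]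
    have hS := FPOL_Sdeg Pf g hne
    rw [Polynomial.natDegree_add_eq_right_of_natDegree_lt (by omega), hdeg]
    omega

end V3
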