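import Pool.Agent.helper54.V3.SpecE

set_option autoImplicit false

open Complex Metric Set Filter Topology MeasureTheory

noncomputable section

namespace V3

theorem FQ0_nonneg (f : ℂ → ℂ) (hf : Differentiable ℂ f) (r : ℝ) :
    Continuous (fun φ : ℝ => f (r * exp (φ * I))) := by
  have := hf.continuous
  fun_prop

/-- lower bound on one circle -/
theorem FQ0_circle {q B : ℂ → ℂ} {θ c₀ : ℂ} {d : ℕ} {K R₀ r κ : ℝ}
    (hq : Differentiable ℂ q) (hθ : ‖θ‖ = 1) (hc : ‖c₀‖ = 1) (hd : 1 ≤ d) (hR₀ : 0 < R₀)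
    (hB : ∀ x : ℂ, R₀ ≤ ‖x‖ → ‖((‖B x‖ : ℝ) : ℂ) / B x - c₀ * (x / (‖x‖ : ℝ)) ^ d‖ ≤ K / ‖x‖)
    (hm : Measurable (En θ B q)) (h0 : ∀ x, 0 ≤ En θ B q x ∧ En θ B q x ≤ 2 * ‖q x‖)
    (hI : ∫ φ in (0 : ℝ)..(2 * Real.pi), q (r * exp (φ * I)) * exp (d * φ * I) = 0)
    (hκ : κ ≤ ∫ φ in (0 : ℝ)..(2 * Real.pi), ‖q (r * exp (φ * I))‖)
    (hκ0 : 0 ≤ κ)
    (hr : R₀ ≤ r) (hrK : 2 * K ≤ r) :
    κ / 2 ≤ ∫ φ in (0 : ℝ)..(2 * Real.pi), En θ B q (r * exp (φ * I)) := by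
  have hr0 : 0 < r := lt_of_lt_of_le hR₀ hr
  have hpi : (0 : ℝ) ≤ 2 * Real.pi := by positivity
  have hcq : Continuous (fun φ : ℝ => q (r * exp (φ * I))) := FQ0_nonneg q hq r
  have hcn : Continuous (fun φ : ℝ => ‖q (r * exp (φ * I))‖) := hcq.norm
  have hcm : Continuous (fun φ : ℝ => q (r * exp (φ * I)) * exp (d * φ * I)) :=
    hcq.mul (by fun_prop)
  have hcr : Continuous (fun φ : ℝ => (θ * c₀ * (q (r * exp (φ * I)) * exp (d * φ * I))).re) :=
    Complex.continuous_re.comp (continuous_const.mul hcm)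
  -- the pointwise bound
  have hnorm : ∀ φ : ℝ, ‖(r : ℂ) * exp (φ * I)‖ = r := by
    intro φ
    rw [norm_mul, Complex.norm_exp_ofReal_mul_I, mul_one, Complex.norm_real, Real.norm_eq_abs,
      abs_of_pos hr0]
  have hpt : ∀ φ : ℝ, (1 / 2) * ‖q (r * exp (φ * I))‖ -
      (θ * c₀ * (q (r * exp (φ * I)) * exp (d * φ * I))).re ≤ En θ B q (r * exp (φ * I)) := by
    intro φ
    set x : ℂ := (r : ℂ) * exp (φ * I) with hx
    have hxn : ‖x‖ = r := hnorm φ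
    have h1 := hB x (by rw [hxn]; exact hr)
    rw [hxn] at h1
    have h2 : x / (r : ℝ) = exp (φ * I) := by
      rw [hx]
      have : (r : ℂ) ≠ 0 := by exact_mod_cast hr0.ne'
      field_simp
    rw [h2, ← Complex.exp_nat_mul] at h1
    have h3 : ((d : ℂ) * (φ * I)) = d * φ * I := by ring
    rw [h3] at h1
    have hKr : K / r ≤ 1 / 2 := by
      rw [div_le_iff₀ hr0]; linarith
    have h4 : ‖((‖B x‖ : ℝ) : ℂ) / B x - c₀ * exp (d * φ * I)‖ ≤ 1 / 2 := h1.trans hKr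
    unfold En
    have h5 : (θ * q x * (((‖B x‖ : ℝ) : ℂ) / B x)) = θ * c₀ * (q x * exp (d * φ * I)) +
        θ * q x * (((‖B x‖ : ℝ) : ℂ) / B x - c₀ * exp (d * φ * I)) := by ring
    rw [h5, Complex.add_re]
    have h6 : (θ * q x * (((‖B x‖ : ℝ) : ℂ) / B x - c₀ * exp (d * φ * I))).re ≤ ‖q x‖ * (1 / 2) := by
      refine (Complex.re_le_norm _).trans ?_
      rw [norm_mul, norm_mul, hθ, one_mul]
      exact mul_le_mul_of_nonneg_left h4 (norm_nonneg _)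
    linarith
  have hEi : IntervalIntegrable (fun φ : ℝ => En θ B q (r * exp (φ * I))) volume 0 (2 * Real.pi) := by
    have hb : IntervalIntegrable (fun φ : ℝ => 2 * ‖q (r * exp (φ * I))‖) volume 0 (2 * Real.pi) :=
      (continuous_const.mul hcn).intervalIntegrable _ _
    refine hb.mono_fun ?_ ?_
    · refine Measurable.aestronglyMeasurable ?_
      exact hm.comp (by fun_prop)
    · refine Filter.Eventually.of_forall fun φ => ?_
      show ‖En θ B q (r * exp (φ * I))‖ ≤ ‖2 * ‖q (r * exp (φ * I))‖‖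
      rw [Real.norm_eq_abs, Real.norm_eq_abs, abs_of_nonneg (h0 _).1, abs_of_nonneg (by positivity)]
      exact (h0 _).2
  have hint : ∫ φ in (0 : ℝ)..(2 * Real.pi), ((1 / 2) * ‖q (r * exp (φ * I))‖ -
      (θ * c₀ * (q (r * exp (φ * I)) * exp (d * φ * I))).re) ≤
      ∫ φ in (0 : ℝ)..(2 * Real.pi), En θ B q (r * exp (φ * I)) := by
    refine intervalIntegral.integral_mono_on hpi ?_ hEi ?_
    · exact ((continuous_const.mul hcn).sub hcr).intervalIntegrable _ _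
    · intro φ _
      exact hpt φ
  have hi1 : IntervalIntegrable (fun φ : ℝ => (1 / 2 : ℝ) * ‖q (r * exp (φ * I))‖) volume 0 (2 * Real.pi) :=
    (continuous_const.mul hcn).intervalIntegrable _ _
  have hi2 : IntervalIntegrable (fun φ : ℝ => (θ * c₀ * (q (r * exp (φ * I)) * exp (d * φ * I))).re)
      volume 0 (2 * Real.pi) := hcr.intervalIntegrable _ _
  rw [intervalIntegral.integral_sub hi1 hi2, intervalIntegral.integral_const_mul] at hint
  have hz : ∫ φ in (0 : ℝ)..(2 * Real.pi), (θ * c₀ * (q (r * exp (φ * I)) * exp (d * φ * I))).re = 0 := by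
    have h7 : ∫ φ in (0 : ℝ)..(2 * Real.pi), (θ * c₀ * (q (r * exp (φ * I)) * exp (d * φ * I))) = 0 := by
      rw [intervalIntegral.integral_const_mul, hI, mul_zero]
    have h8 := Complex.reCLM.intervalIntegral_comp_comm
      (f := fun φ : ℝ => (θ * c₀ * (q (r * exp (φ * I)) * exp (d * φ * I)))) (μ := volume)
      (a := 0) (b := 2 * Real.pi) ((continuous_const.mul hcm).intervalIntegrable _ _)
    rw [h7] at h8
    simpa using h8
  rw [hz, sub_zero] at hint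
  linarith

theorem FQ0 (hFR : FRAT_stmt) (hFP : FPH_stmt) (hFC : FCI_stmt) (hFL : FPL_stmt) (hE : ENB_stmt) :
    FQ0_stmt := by
  intro P A g B v q θ hL hfin
  by_contra hne
  push Not at hne
  obtain ⟨N, hN0, hNd, hNp, hNB⟩ := hFR P A g B v q θ hfin.toFinset hL (by simp)
  obtain ⟨d, c₀, K, R₀, hd, hc, hR₀, hB⟩ := hFP hfin.toFinset N B hN0 hNd hNB
  obtain ⟨hC1, hC2⟩ := hFC q hL.qd
  obtain ⟨κ, hκ, hκr⟩ := hC2 hne
  obtain ⟨h0, hm, hIn⟩ := hE P A g B v q θ hL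
  obtain ⟨C, hCb⟩ := hL.eF hfin
  set R₁ : ℝ := max (max R₀ (2 * K)) 1 with hR₁
  have hR₁0 : 0 < R₁ := lt_of_lt_of_le one_pos (le_max_right _ _)
  have hcirc : ∀ r : ℝ, R₁ ≤ r → κ / 2 ≤ ∫ φ in (0 : ℝ)..(2 * Real.pi), En θ B q (r * exp (φ * I)) := by
    intro r hr
    have hr1 : 1 ≤ r := (le_max_right _ _).trans hr
    have hr2 : R₀ ≤ r := (le_max_left _ _).trans ((le_max_left _ _).trans hr)
    have hr3 : 2 * K ≤ r := (le_max_right _ _).trans ((le_max_left _ _).trans hr)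
    exact FQ0_circle hL.qd hL.th hc hd hR₀ hB hm h0 (hC1 d r hd (by linarith)) (hκr r hr1) hκ.le hr2 hr3
  have hall : ∀ R : ℝ, R₁ < R → κ / 2 * ((R ^ 2 - R₁ ^ 2) / 2) ≤ C := by
    intro R hR
    have := hFL (En θ B q) (κ / 2) R₁ R hm (fun x => (h0 x).1) (hIn R) hR₁0 hR (by positivity) hcirc
    exact this.trans (hCb R (hR₁0.trans hR))
  -- contradiction for large R
  obtain ⟨n, hn⟩ := exists_nat_gt (4 * |C| / κ + R₁ ^ 2 + R₁ + 1)
  have hnn : (0 : ℝ) ≤ 4 * |C| / κ := by positivity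
  have hn1 : R₁ < (n : ℝ) := by nlinarith [sq_nonneg R₁]
  have hn2 : (1 : ℝ) ≤ n := by nlinarith [sq_nonneg R₁]
  have h1 := hall n hn1
  have h2 : (n : ℝ) ≤ (n : ℝ) ^ 2 := by nlinarith
  have h3 : 4 * |C| / κ < (n : ℝ) ^ 2 - R₁ ^ 2 := by nlinarith
  have h4 : 4 * |C| < ((n : ℝ) ^ 2 - R₁ ^ 2) * κ := by
    rwa [div_lt_iff₀ hκ] at h3
  have h5 := le_abs_self C
  nlinarith

end V3
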