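import Pool.Agent.helper54.V3.SpecE

/-!
# Project v3: FRAT, `B` is rational with small numerator
-/

set_option autoImplicit false

open Complex Metric Set Filter Topology MeasureTheory

noncomputable section

namespace V3

theorem FRAT_ord (Pf : Finset ℂ) (B : ℂ → ℂ) (N : Polynomial ℂ) (hN : N ≠ 0)
    (hB : ∀ x ∉ Pf, B x = N.eval x / ∏ p ∈ Pf, (x - p) ^ 2) (z : ℂ) (hz : z ∉ Pf) :
    OrdGe B z (N.rootMultiplicity z) := by
  obtain ⟨M, hM, -⟩ := Polynomial.exists_eq_pow_rootMultiplicity_mul_and_not_dvd N hN z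
  have hne : ∀ x : ℂ, x ∉ Pf → ∏ p ∈ Pf, (x - p) ^ 2 ≠ 0 := by
    intro x hx
    refine Finset.prod_ne_zero_iff.2 fun p hp => pow_ne_zero 2 (sub_ne_zero.2 ?_)
    rintro rfl
    exact hx hp
  refine ⟨fun x => M.eval x / ∏ p ∈ Pf, (x - p) ^ 2, ?_, ?_⟩
  · refine AnalyticAt.div ?_ ?_ (hne z hz)
    · have h1 : Differentiable ℂ (fun x => M.eval x) := M.differentiable
      exact h1.analyticAt z
    · have h1 : Differentiable ℂ (fun x : ℂ => ∏ p ∈ Pf, (x - p) ^ 2) := by
        refine Differentiable.fun_finsetProd fun p _ => ?_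
        fun_prop
      exact h1.analyticAt z
  · have hopen : (↑Pf : Set ℂ)ᶜ ∈ 𝓝 z := (Pf.finite_toSet.isClosed.isOpen_compl).mem_nhds hz
    filter_upwards [hopen] with x hx
    have hx' : x ∉ Pf := hx
    rw [hB x hx']
    have h2 : N.eval x = (x - z) ^ N.rootMultiplicity z * M.eval x := by
      conv_lhs => rw [hM]
      rw [Polynomial.eval_mul, Polynomial.eval_pow, Polynomial.eval_sub, Polynomial.eval_X,
        Polynomial.eval_C]
    rw [h2, mul_div_assoc]

theorem FRAT (hS : FSUM_stmt) (hP : FPOL_stmt) : FRAT_stmt := by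
  intro P A g B v q θ Pf hL hPf
  obtain ⟨a, c, hac⟩ := hS P A g B v q θ Pf hL hPf
  have h0 : (0 : ℂ) ∈ Pf := by
    have := hL.zero
    rw [hPf] at this
    exact this
  obtain ⟨N, hN1, hN2, -⟩ := hP Pf g a c ⟨0, h0⟩
  have hN0 : N ≠ 0 := by
    rintro rfl
    exact hN2 0 h0 Polynomial.eval_zero
  have hB : ∀ x ∉ Pf, B x = N.eval x / ∏ p ∈ Pf, (x - p) ^ 2 := by
    intro x hx
    have hne : ∏ p ∈ Pf, (x - p) ^ 2 ≠ 0 := by
      refine Finset.prod_ne_zero_iff.2 fun p hp => pow_ne_zero 2 (sub_ne_zero.2 ?_)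
      rintro rfl
      exact hx hp
    rw [eq_div_iff hne, ← hN1 x hx, hac x (by rw [hPf]; exact hx)]
  refine ⟨N, hN0, ?_, hN2, hB⟩
  have hfin : P.Finite := by rw [hPf]; exact Pf.finite_toSet
  have hcF := hL.cF hfin N.roots.toFinset (fun z => N.rootMultiplicity z) (by
    intro z hz
    rw [Multiset.mem_toFinset, Polynomial.mem_roots hN0] at hz
    have hzP : z ∉ Pf := fun h => hN2 z h hz
    exact ⟨by rw [hPf]; exact hzP, FRAT_ord Pf B N hN0 hB z hzP⟩)
  have hsum : ∑ z ∈ N.roots.toFinset, N.rootMultiplicity z = N.natDegree := by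
    have h1 : ∑ z ∈ N.roots.toFinset, N.roots.count z = N.roots.card :=
      Multiset.toFinset_sum_count_eq _
    have h2 : N.roots.card = N.natDegree :=
      (Polynomial.splits_iff_card_roots.1 (IsAlgClosed.splits N))
    rw [← h2, ← h1]
    refine Finset.sum_congr rfl fun z _ => ?_
    rw [Polynomial.count_roots]
  rw [hsum, hPf, Set.ncard_coe_finset] at hcF
  omega

end V3
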