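import Pool.Agent.helper53.V3.NMO

set_option autoImplicit false

open Complex Metric Set Filter Topology MeasureTheory

noncomputable section

namespace V3

theorem NBP (hLP : NLP_stmt) (hPC : PCO_stmt) (hPK : NPK_stmt) (hBD : NBD_stmt) (hTM : TMO_stmt)
    (hTU : TUL_stmt) : NBP_stmt := by
  intro U ι _ _ p g c C x₁ x₂ B hconf hB
  classical
  obtain ⟨hL1, hL2, hL3, hL4⟩ := hLP U ι p c hconf.c0 hconf.sep
  have hclosed : IsClosed (LP U ι p) := (hPC (LP U ι p) c hconf.c0 hL1).1
  have hc := hconf.c0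
  have hC := hconf.C0
  -- the residues
  have hex : ∀ q ∈ LP U ι p, ∃ z : ℂ, ‖z‖ ≤ C ∧ ∀ i : ∀ m, ι m, Tendsto (fun m => p m (i m)) U (𝓝 q) →
      Tendsto (fun m => g m (i m)) U (𝓝 z) := by
    intro q hq
    obtain ⟨i, hi⟩ := hq
    obtain ⟨z, hz, hzt⟩ := hTU U (fun m => g m (i m)) C (hconf.hg.mono fun m hm => hm (i m))
    refine ⟨z, hz, ?_⟩
    intro i' hi'
    refine hzt.congr' ?_
    filter_upwards [hL2 i i' q hi hi'] with m hm
    rw [hm]
  choose! gg hgg1 hgg2 using hex
  refine ⟨gg, hgg1, fun i q hi => hgg2 q ⟨i, hi⟩ i hi, ?_⟩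
  intro q hq
  have hq' := hq
  obtain ⟨i, hi⟩ := hq
  have hgi := hgg2 q ⟨i, hi⟩ i hi
  -- the regular parts
  set R : ℕ → ℂ → ℂ := fun m y => ∑ l ∈ Finset.univ.erase (i m), (1 / (y - p m l) ^ 2 + g m l / (y - p m l))
    with hRdef
  have hRB : ∀ m y, BF (p m) (g m) y = (1 / (y - p m (i m)) ^ 2 + g m (i m) / (y - p m (i m))) + R m y := by
    intro m y
    exact (Finset.add_sum_erase Finset.univ (fun l => (1 / (y - p m l) ^ 2 + g m l / (y - p m l)))
      (Finset.mem_univ (i m))).symm
  set ρ : ℝ := 1 + c + C + ‖q‖ with hρ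
  have hqn := norm_nonneg q
  obtain ⟨K, hK⟩ := NMO_local hPK hBD hc hC (ρ := ρ) (δ := c / 2) (by linarith) (by linarith) (by linarith)
    (by linarith)
  have hnear : ∀ᶠ m in (U : Filter ℕ), ‖p m (i m) - q‖ < c / 4 := by
    have := hi.eventually (Metric.ball_mem_nhds q (by positivity : (0 : ℝ) < c / 4))
    filter_upwards [this] with m hm
    simpa [dist_eq_norm] using hm
  have hloc : ∀ᶠ m in (U : Filter ℕ), DifferentiableOn ℂ (R m) (ball q (c / 4)) ∧
      ∀ y ∈ ball q (c / 4), ‖R m y‖ ≤ K := by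
    filter_upwards [hnear, hconf.sep, hconf.hg, hconf.hx] with m h1 h2 h3 h4
    have hfarp : ∀ y ∈ ball q (c / 4), ∀ l ∈ Finset.univ.erase (i m), c / 2 ≤ ‖y - p m l‖ := by
      intro y hy l hl
      have h5 : ‖y - q‖ < c / 4 := by simpa [dist_eq_norm] using hy
      have hne : l ≠ i m := (Finset.mem_erase.mp hl).1
      have h6 := h2 l (i m) hne
      have h7 : p m l - p m (i m) = (y - q) - (p m (i m) - q) - (y - p m l) := by ring
      rw [h7] at h6
      have h8 := norm_sub_le ((y - q) - (p m (i m) - q)) (y - p m l)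
      have h9 := norm_sub_le (y - q) (p m (i m) - q)
      linarith
    constructor
    · exact NMO_diff (p m) (g m) (Finset.univ.erase (i m)) (ball q (c / 4)) (by
        intro l hl y hy heq
        have := hfarp y hy l hl
        rw [heq, sub_self, norm_zero] at this
        linarith)
    · intro y hy
      have h5 : ‖y - q‖ < c / 4 := by simpa [dist_eq_norm] using hy
      have h6 : ‖y‖ ≤ ρ := by
        have : y = (y - q) + q := by ring
        rw [this]
        refine (norm_add_le _ _).trans ?_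
        linarith
      refine hK (ι m) (p m) (g m) (x₁ m) (x₂ m) h2 h3 h4 (Finset.univ.erase (i m)) ?_ y (by simpa using h6)
        (fun l hl => hfarp y hy l hl)
      intro l hl
      have hli : l = i m := by simpa using hl
      rw [hli]
      have : p m (i m) = (p m (i m) - q) + q := by ring
      rw [this]
      refine lt_of_le_of_lt (norm_add_le _ _) ?_
      linarith
  obtain ⟨h, hh, hhR⟩ := hTM U R (ball q (c / 4)) isOpen_ball (by
    intro x hx
    obtain ⟨r, hr, hrs⟩ := Metric.isOpen_iff.mp isOpen_ball x hx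
    refine ⟨r, hr, K, ?_⟩
    filter_upwards [hloc] with m hm
    exact ⟨hm.1.mono hrs, fun y hy => hm.2 y (hrs hy)⟩)
  refine ⟨h, ?_, ?_⟩
  · exact hh.analyticAt (ball_mem_nhds q (by positivity))
  · have hb : ball q (c / 4) ∈ 𝓝 q := ball_mem_nhds q (by positivity)
    filter_upwards [mem_nhdsWithin_of_mem_nhds hb, self_mem_nhdsWithin] with x hx1 hx2
    have hxq : x ≠ q := hx2
    have hx3 : x ∉ LP U ι p := by
      intro hxL
      have h1 := hL1 x hxL q hq' hxq
      have h2 : ‖x - q‖ < c / 4 := by simpa [dist_eq_norm] using hx1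
      linarith
    have t1 := hB.tendsto_at (show x ∈ (LP U ι p)ᶜ from hx3)
    have t2 := hhR.tendsto_at hx1
    have hne : x - q ≠ 0 := sub_ne_zero.mpr hxq
    have t3 : Tendsto (fun m => x - p m (i m)) U (𝓝 (x - q)) := tendsto_const_nhds.sub hi
    have t4 : Tendsto (fun m => 1 / (x - p m (i m)) ^ 2) U (𝓝 (1 / (x - q) ^ 2)) :=
      tendsto_const_nhds.div (t3.pow 2) (pow_ne_zero _ hne)
    have t5 : Tendsto (fun m => g m (i m) / (x - p m (i m))) U (𝓝 (gg q / (x - q))) :=
      hgi.div t3 hne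
    have t6 : Tendsto (fun m => BF (p m) (g m) x) U (𝓝 (1 / (x - q) ^ 2 + gg q / (x - q) + h x)) := by
      have := (t4.add t5).add t2
      refine this.congr ?_
      intro m
      rw [hRB m x]
    exact tendsto_nhds_unique t1 t6

end V3
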