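import Pool.Agent.helper54.V3.SpecT

set_option autoImplicit false

open Complex Metric Set Filter Topology MeasureTheory

noncomputable section

namespace V3

/-- splitting into the near part and the far part -/
theorem NMO_split {ι : Type} [Fintype ι] (p g : ι → ℂ) (R : ℝ) (x : ℂ) :
    BF p g x = ∑ i ∈ Finset.univ.filter (fun i => ‖p i‖ < R),
      (1 / (x - p i) ^ 2 + g i / (x - p i)) + far p g R x := by
  classical
  unfold BF far
  rw [← Finset.sum_filter_add_sum_filter_not Finset.univ (fun i => ‖p i‖ < R)]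
  congr 1
  rw [Finset.sum_filter]
  refine Finset.sum_congr rfl fun i _ => ?_
  by_cases h : ‖p i‖ < R
  · simp [h]
  · simp [not_lt.mp h, h]

theorem NMO_term {a g : ℂ} {δ C : ℝ} (hδ : 0 < δ) (ha : δ ≤ ‖a‖) (hg : ‖g‖ ≤ C) :
    ‖1 / a ^ 2 + g / a‖ ≤ 1 / δ ^ 2 + C / δ := by
  have ha0 : 0 < ‖a‖ := lt_of_lt_of_le hδ ha
  refine (norm_add_le _ _).trans (add_le_add ?_ ?_)
  · rw [norm_div, norm_one, norm_pow]
    exact one_div_le_one_div_of_le (by positivity) (by gcongr)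
  · rw [norm_div]
    have hC : 0 ≤ C := (norm_nonneg g).trans hg
    exact div_le_div₀ hC hg hδ ha

/-- bound of the near part -/
theorem NMO_near (hPK : NPK_stmt) {ι : Type} (p g : ι → ℂ) (S : Finset ι) {c C δ R : ℝ}
    (hc : 0 < c) (hR : 0 < R) (hδ : 0 < δ) (hC : 0 ≤ C)
    (hsep : ∀ i l, i ≠ l → c ≤ ‖p i - p l‖) (hg : ∀ i, ‖g i‖ ≤ C) (hS : ∀ i ∈ S, ‖p i‖ < R)
    (y : ℂ) (hy : ∀ i ∈ S, δ ≤ ‖y - p i‖) :
    ‖∑ i ∈ S, (1 / (y - p i) ^ 2 + g i / (y - p i))‖ ≤ (1 + 2 * R / c) ^ 2 * (1 / δ ^ 2 + C / δ) := by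
  have h1 : ‖∑ i ∈ S, (1 / (y - p i) ^ 2 + g i / (y - p i))‖ ≤ ∑ i ∈ S, (1 / δ ^ 2 + C / δ) := by
    refine (norm_sum_le _ _).trans (Finset.sum_le_sum fun i hi => ?_)
    exact NMO_term hδ (hy i hi) (hg i)
  rw [Finset.sum_const, nsmul_eq_mul] at h1
  refine h1.trans ?_
  have h2 := hPK ι p S c R hc hR (fun i _ l _ h => hsep i l h) hS
  exact mul_le_mul_of_nonneg_right h2 (by positivity)

theorem NMO_diff {ι : Type} (p g : ι → ℂ) (S : Finset ι) (Ω : Set ℂ)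
    (h : ∀ i ∈ S, ∀ y ∈ Ω, y ≠ p i) :
    DifferentiableOn ℂ (fun y => ∑ i ∈ S, (1 / (y - p i) ^ 2 + g i / (y - p i))) Ω := by
  have h1 : ∀ i ∈ S, DifferentiableOn ℂ (fun y => (1 / (y - p i) ^ 2 + g i / (y - p i))) Ω := by
    intro i hi y hy
    have hne : y - p i ≠ 0 := sub_ne_zero.mpr (h i hi y hy)
    refine DifferentiableAt.differentiableWithinAt ?_
    refine DifferentiableAt.add ?_ ?_
    · refine DifferentiableAt.div (by fun_prop) (by fun_prop) (pow_ne_zero _ hne)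
    · refine DifferentiableAt.div (by fun_prop) (by fun_prop) hne
  exact DifferentiableOn.fun_sum h1

/-- local bounds of the sum over a set of labels containing all far ones -/
theorem NMO_local (hPK : NPK_stmt) (hBD : NBD_stmt) {c C ρ δ : ℝ} (hc : 0 < c) (hC : 0 ≤ C) (h1ρ : 1 ≤ ρ)
    (hcρ : c ≤ ρ) (hCρ : C ≤ ρ) (hδ : 0 < δ) :
    ∃ K : ℝ, ∀ (ι : Type) [Fintype ι] [DecidableEq ι] (p g : ι → ℂ) (x₁ x₂ : ℂ),
      (∀ i l, i ≠ l → c ≤ ‖p i - p l‖) → (∀ i, ‖g i‖ ≤ C) →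
      (‖x₁‖ ≤ C ∧ ‖x₂‖ ≤ C ∧ c ≤ ‖x₁ - x₂‖ ∧ (∀ i, c ≤ ‖x₁ - p i‖ ∧ c ≤ ‖x₂ - p i‖) ∧
        ‖BF p g x₁‖ ≤ C ∧ ‖BF p g x₂‖ ≤ C) →
      ∀ T : Finset ι, (∀ i, i ∉ T → ‖p i‖ < 2 * ρ) → ∀ y ∈ closedBall (0 : ℂ) ρ,
        (∀ i ∈ T, δ ≤ ‖y - p i‖) →
        ‖∑ i ∈ T, (1 / (y - p i) ^ 2 + g i / (y - p i))‖ ≤ K := by
  obtain ⟨K, hK⟩ := hBD c C ρ hc hC h1ρ hcρ hCρ
  refine ⟨(1 + 2 * (2 * ρ) / c) ^ 2 * (1 / δ ^ 2 + C / δ) + K, ?_⟩
  intro ι _ _ p g x₁ x₂ hsep hg hx T hT y hy hyT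
  obtain ⟨hx1, hx2, hx3, hx4, hx5, hx6⟩ := hx
  have hfar := hK ι p g x₁ x₂ hsep hg hx1 hx2 hx3 hx4 hx5 hx6 y hy
  have hsplit : ∑ i ∈ T, (1 / (y - p i) ^ 2 + g i / (y - p i)) =
      ∑ i ∈ T.filter (fun i => ‖p i‖ < 2 * ρ), (1 / (y - p i) ^ 2 + g i / (y - p i)) +
        far p g (2 * ρ) y := by
    rw [← Finset.sum_filter_add_sum_filter_not T (fun i => ‖p i‖ < 2 * ρ)]
    congr 1
    unfold far
    rw [← Finset.sum_filter]
    refine Finset.sum_congr ?_ fun _ _ => rfl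
    ext i
    simp only [Finset.mem_filter, Finset.mem_univ, true_and, not_lt]
    constructor
    · intro h; exact h.2
    · intro h
      refine ⟨?_, h⟩
      by_contra hi
      exact absurd (hT i hi) (not_lt.mpr h)
  rw [hsplit]
  refine (norm_add_le _ _).trans (add_le_add ?_ hfar)
  exact NMO_near hPK p g _ hc (by linarith) hδ hC hsep hg
    (fun i hi => (Finset.mem_filter.mp hi).2) y (fun i hi => hyT i (Finset.mem_filter.mp hi).1)

theorem NMO (hLP : NLP_stmt) (hPC : PCO_stmt) (hPK : NPK_stmt) (hBD : NBD_stmt) (hTM : TMO_stmt) :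
    NMO_stmt := by
  intro U ι _ _ p g c C x₁ x₂ hconf
  obtain ⟨hL1, hL2, hL3, hL4⟩ := hLP U ι p c hconf.c0 hconf.sep
  have hclosed : IsClosed (LP U ι p) := (hPC (LP U ι p) c hconf.c0 hL1).1
  have key : ∀ x ∈ (LP U ι p)ᶜ, ∃ r > (0 : ℝ), ∃ K : ℝ, ∀ᶠ m in (U : Filter ℕ),
      DifferentiableOn ℂ (BF (p m) (g m)) (ball x r) ∧ ∀ y ∈ ball x r, ‖BF (p m) (g m) y‖ ≤ K := by
    intro x hx
    obtain ⟨δ, hδ, hev⟩ := hL3 x hx
    set ρ : ℝ := 1 + c + C + ‖x‖ + δ with hρ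
    have hc := hconf.c0
    have hC := hconf.C0
    have hxn := norm_nonneg x
    obtain ⟨K, hK⟩ := NMO_local hPK hBD hc hC (ρ := ρ) (δ := δ / 2) (by linarith) (by linarith) (by linarith)
      (by linarith)
    refine ⟨δ / 2, by linarith, K, ?_⟩
    filter_upwards [hev, hconf.sep, hconf.hg, hconf.hx] with m h1 h2 h3 h4
    have hfarp : ∀ y ∈ ball x (δ / 2), ∀ i, δ / 2 ≤ ‖y - p m i‖ := by
      intro y hy i
      have h5 : ‖y - x‖ < δ / 2 := by simpa [dist_eq_norm] using hy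
      have h6 : p m i - x = (y - x) - (y - p m i) := by ring
      have h7 := h1 i
      rw [h6] at h7
      have h8 := norm_sub_le (y - x) (y - p m i)
      linarith
    constructor
    · have := NMO_diff (p m) (g m) Finset.univ (ball x (δ / 2)) (by
        intro i _ y hy heq
        have := hfarp y hy i
        rw [heq, sub_self, norm_zero] at this
        linarith)
      exact this
    · intro y hy
      classical
      have h5 : ‖y - x‖ < δ / 2 := by simpa [dist_eq_norm] using hy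
      have h6 : ‖y‖ ≤ ρ := by
        have : y = (y - x) + x := by ring
        rw [this]
        refine (norm_add_le _ _).trans ?_
        linarith
      exact hK (ι m) (p m) (g m) (x₁ m) (x₂ m) h2 h3 h4 Finset.univ (by simp) y (by simpa using h6)
        (fun i _ => hfarp y hy i)
  constructor
  · intro x hx
    obtain ⟨r, hr, K, hev⟩ := key x hx
    refine ⟨r, hr, ?_⟩
    filter_upwards [hev] with m hm
    exact hm.1
  · exact hTM U (fun m => BF (p m) (g m)) (LP U ι p)ᶜ hclosed.isOpen_compl key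

end V3
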