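import Pool.Agent.helper10.V3.SpecL

set_option autoImplicit false

open Complex Metric Set Filter Topology MeasureTheory MPS

noncomputable section

namespace V3S

theorem VBD (hALC : ALC_stmt) (hVLO : VLO_stmt) (hREG : REG_stmt) (hBA3 : BA3_stmt)
    (hTBX : V3.TBX_stmt) : VBD_stmt := by
  intro n ra Cf D hS ρ hρ
  obtain ⟨-, -, hR⟩ := hREG n ra Cf D hS
  obtain ⟨hT1, hT2⟩ := hTBX
  have hloc : ∀ x : ℂ, ∃ r > (0 : ℝ), ∃ C : ℝ, ∀ᶠ m in UF, ∀ y ∈ ball x r, ‖(D m).v y‖ ≤ C := by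
    intro x
    obtain ⟨ε, hε, hball⟩ := hR x
    have hsub : ∀ y ∈ sphere x (ε / 2), y ∈ Reg D := by
      intro y hy
      have hd : dist y x = ε / 2 := hy
      refine hball y ?_ ?_
      · rw [mem_ball, hd]
        linarith
      · rintro rfl
        rw [dist_self] at hd
        linarith
    obtain ⟨C, hC⟩ := hT2 (hyperfilter ℕ : Ultrafilter ℕ) (fun m => (D m).v) (sphere x (ε / 2))
      (isCompact_sphere x (ε / 2)) (by
        intro y hy
        exact hVLO n ra Cf D hS y (hsub y hy) (hALC n ra Cf D hS y (hsub y hy)))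
    refine ⟨ε / 2, by linarith, C, ?_⟩
    have hC' : ∀ᶠ m in UF, ∀ y ∈ sphere x (ε / 2), ‖(D m).v y‖ ≤ C := hC
    filter_upwards [hC'] with m hm
    intro y hy
    exact hT1 (D m).v x (ε / 2) ε C (by linarith) (by linarith)
      ((hBA3 n ra Cf (D m) (hS.good m)).1.differentiableOn) hm y (ball_subset_closedBall hy)
  obtain ⟨C, hC⟩ := hT2 (hyperfilter ℕ : Ultrafilter ℕ) (fun m => (D m).v) (closedBall 0 ρ)
    (isCompact_closedBall 0 ρ) (fun y _ => hloc y)
  refine ⟨C, ?_⟩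
  have hC' : ∀ᶠ m in UF, ∀ y ∈ closedBall (0 : ℂ) ρ, ‖(D m).v y‖ ≤ C := hC
  filter_upwards [hC'] with m hm
  intro x hx
  exact hm x (ball_subset_closedBall hx)

end V3S
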