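import Pool.Agent.helper54.V3.SpecT

set_option autoImplicit false

open Complex Metric Set Filter Topology MeasureTheory

noncomputable section

namespace V3

/-- the second derivative of one term -/
def NB2_T (x a g : ℂ) : ℂ := 6 / (x - a) ^ 4 + 2 * g / (x - a) ^ 3

theorem NB2_hd1 (a g x : ℂ) (hx : x ≠ a) :
    HasDerivAt (fun y => 1 / (y - a) ^ 2 + g / (y - a)) (-2 / (x - a) ^ 3 - g / (x - a) ^ 2) x := by
  have hne : x - a ≠ 0 := sub_ne_zero.mpr hx
  have h0 : HasDerivAt (fun y : ℂ => y - a) 1 x := (hasDerivAt_id x).sub_const a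
  have h1 : HasDerivAt (fun y : ℂ => (y - a) ^ 2) (2 * (x - a)) x :=
    (h0.fun_pow 2).congr_deriv (by norm_num)
  have h2 : HasDerivAt (fun y => 1 / (y - a) ^ 2) ((0 * (x - a) ^ 2 - 1 * (2 * (x - a))) / ((x - a) ^ 2) ^ 2) x :=
    (hasDerivAt_const x (1 : ℂ)).div h1 (pow_ne_zero _ hne)
  have h3 : HasDerivAt (fun y => g / (y - a)) ((0 * (x - a) - g * 1) / (x - a) ^ 2) x :=
    (hasDerivAt_const x g).div h0 hne
  refine (h2.add h3).congr_deriv ?_
  field_simp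
  ring

theorem NB2_hd2 (a g x : ℂ) (hx : x ≠ a) :
    HasDerivAt (fun y => -2 / (y - a) ^ 3 - g / (y - a) ^ 2) (NB2_T x a g) x := by
  have hne : x - a ≠ 0 := sub_ne_zero.mpr hx
  have h0 : HasDerivAt (fun y : ℂ => y - a) 1 x := (hasDerivAt_id x).sub_const a
  have h1 : HasDerivAt (fun y : ℂ => (y - a) ^ 3) (3 * (x - a) ^ 2) x :=
    (h0.fun_pow 3).congr_deriv (by norm_num)
  have h1' : HasDerivAt (fun y : ℂ => (y - a) ^ 2) (2 * (x - a)) x :=
    (h0.fun_pow 2).congr_deriv (by norm_num)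
  have h2 : HasDerivAt (fun y => -2 / (y - a) ^ 3) ((0 * (x - a) ^ 3 - (-2) * (3 * (x - a) ^ 2)) / ((x - a) ^ 3) ^ 2) x :=
    (hasDerivAt_const x (-2 : ℂ)).div h1 (pow_ne_zero _ hne)
  have h3 : HasDerivAt (fun y => g / (y - a) ^ 2) ((0 * (x - a) ^ 2 - g * (2 * (x - a))) / ((x - a) ^ 2) ^ 2) x :=
    (hasDerivAt_const x g).div h1' (pow_ne_zero _ hne)
  refine (h2.sub h3).congr_deriv ?_
  unfold NB2_T
  field_simp
  ring

theorem NB2_second {ι : Type} [Fintype ι] (p g : ι → ℂ) (x : ℂ) (hx : ∀ i, x ≠ p i) :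
    iteratedDeriv 2 (BF p g) x = ∑ i, NB2_T x (p i) (g i) := by
  have hopen : ∀ᶠ y in 𝓝 x, ∀ i, y ≠ p i := by
    rw [Filter.eventually_all]
    intro i
    exact isOpen_ne.mem_nhds (hx i)
  have h1 : ∀ y, (∀ i, y ≠ p i) → HasDerivAt (BF p g) (∑ i, (-2 / (y - p i) ^ 3 - g i / (y - p i) ^ 2)) y := by
    intro y hy
    have := HasDerivAt.fun_sum (u := Finset.univ) (fun i (_ : i ∈ Finset.univ) => NB2_hd1 (p i) (g i) y (hy i))
    exact this
  have h2 : HasDerivAt (fun y => ∑ i, (-2 / (y - p i) ^ 3 - g i / (y - p i) ^ 2)) (∑ i, NB2_T x (p i) (g i)) x :=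
    HasDerivAt.fun_sum (u := Finset.univ) (fun i (_ : i ∈ Finset.univ) => NB2_hd2 (p i) (g i) x (hx i))
  have h3 : deriv (BF p g) =ᶠ[𝓝 x] fun y => ∑ i, (-2 / (y - p i) ^ 3 - g i / (y - p i) ^ 2) := by
    filter_upwards [hopen] with y hy
    exact (h1 y hy).deriv
  rw [iteratedDeriv_succ, iteratedDeriv_one]
  rw [h3.deriv_eq]
  exact h2.deriv

/-- the far tail -/
theorem NB2_tail (hSU : NSU_stmt) {ι : Type} (p g : ι → ℂ) (S : Finset ι) {c C ρ : ℝ} {x : ℂ}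
    (hc : 0 < c) (hC : 0 ≤ C) (hρ : 1 ≤ ρ) (hcρ : c ≤ ρ) (hx : ‖x‖ ≤ ρ)
    (hsep : ∀ i ∈ S, ∀ l ∈ S, i ≠ l → c ≤ ‖p i - p l‖) (hg : ∀ i ∈ S, ‖g i‖ ≤ C)
    (hS : ∀ i ∈ S, 2 * ρ ≤ ‖p i‖) :
    ∑ i ∈ S, ‖NB2_T x (p i) (g i)‖ ≤ (96 + 16 * C) * (50 / (c ^ 2 * (2 * ρ))) := by
  have h1 : ∀ i ∈ S, ‖NB2_T x (p i) (g i)‖ ≤ (96 + 16 * C) * (1 / ‖p i‖ ^ 3) := by
    intro i hi
    have hp : 2 * ρ ≤ ‖p i‖ := hS i hi
    have hp0 : 0 < ‖p i‖ := by linarith
    have hd : ‖p i‖ / 2 ≤ ‖x - p i‖ := by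
      have := norm_sub_norm_le (p i) x
      rw [norm_sub_rev] at this
      linarith
    have hd0 : 0 < ‖p i‖ / 2 := by linarith
    unfold NB2_T
    refine (norm_add_le _ _).trans ?_
    have e1 : ‖6 / (x - p i) ^ 4‖ ≤ 96 * (1 / ‖p i‖ ^ 3) := by
      rw [norm_div, norm_pow]
      have h6 : ‖(6 : ℂ)‖ = 6 := by norm_num
      rw [h6]
      have h7 : (6 : ℝ) / ‖x - p i‖ ^ 4 ≤ 6 / (‖p i‖ / 2) ^ 4 := by gcongr
      refine h7.trans ?_
      have h8 : (6 : ℝ) / (‖p i‖ / 2) ^ 4 = 96 / ‖p i‖ ^ 4 := by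
        field_simp
        norm_num
      rw [h8]
      have h9 : ‖p i‖ ^ 3 ≤ ‖p i‖ ^ 4 := by
        apply pow_le_pow_right₀ (by linarith) (by norm_num)
      rw [mul_one_div]
      gcongr
    have e2 : ‖2 * g i / (x - p i) ^ 3‖ ≤ 16 * C * (1 / ‖p i‖ ^ 3) := by
      rw [norm_div, norm_pow, norm_mul]
      have h6 : ‖(2 : ℂ)‖ = 2 := by norm_num
      rw [h6]
      have h7 : 2 * ‖g i‖ / ‖x - p i‖ ^ 3 ≤ 2 * C / (‖p i‖ / 2) ^ 3 := by
        have := hg i hi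
        gcongr
      refine h7.trans (le_of_eq ?_)
      field_simp
      ring
    linarith
  refine (Finset.sum_le_sum h1).trans ?_
  rw [← Finset.mul_sum]
  have h2 := hSU ι p S c (2 * ρ) hc (by linarith) hsep hS
  exact mul_le_mul_of_nonneg_left h2 (by positivity)

theorem NB2_cont {U : Ultrafilter ℕ} {a g : ℕ → ℂ} {q γ x : ℂ} (ha : Tendsto a U (𝓝 q))
    (hg : Tendsto g U (𝓝 γ)) (hx : x ≠ q) : Tendsto (fun m => NB2_T x (a m) (g m)) U (𝓝 (NB2_T x q γ)) := by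
  have hne : x - q ≠ 0 := sub_ne_zero.mpr hx
  have t3 : Tendsto (fun m => x - a m) U (𝓝 (x - q)) := tendsto_const_nhds.sub ha
  have t4 : Tendsto (fun m => 6 / (x - a m) ^ 4) U (𝓝 (6 / (x - q) ^ 4)) :=
    tendsto_const_nhds.div (t3.pow 4) (pow_ne_zero _ hne)
  have t5 : Tendsto (fun m => 2 * g m / (x - a m) ^ 3) U (𝓝 (2 * γ / (x - q) ^ 3)) :=
    (tendsto_const_nhds.mul hg).div (t3.pow 3) (pow_ne_zero _ hne)
  exact t4.add t5

theorem NB2 (hLP : NLP_stmt) (hGS : GSF_stmt) (hPC : PCO_stmt) (hSU : NSU_stmt) (hTD : TDE_stmt)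
    (hMO : NMO_stmt) : NB2_stmt := by
  intro U ι _ _ p g c C x₁ x₂ B gg hconf hB hgg1 hgg2 x hx
  classical
  obtain ⟨hL1, hL2, hL3, hL4⟩ := hLP U ι p c hconf.c0 hconf.sep
  have hc := hconf.c0
  have hC := hconf.C0
  obtain ⟨hcl, hcount, -⟩ := hPC (LP U ι p) c hc hL1
  obtain ⟨hEH, -⟩ := hMO U ι p g c C x₁ x₂ hconf
  obtain ⟨-, -, hT2⟩ := hTD U (fun m => BF (p m) (g m)) B (LP U ι p)ᶜ hcl.isOpen_compl hEH hB
  have hlim : Tendsto (fun m => iteratedDeriv 2 (BF (p m) (g m)) x) U (𝓝 (iteratedDeriv 2 B x)) :=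
    hT2.tendsto_at hx
  obtain ⟨δ, hδ, hδev⟩ := hL3 x hx
  set P := LP U ι p with hPdef
  set F : P → ℂ := fun q => NB2_T x (q : ℂ) (gg q) with hF
  set E : ℝ → ℝ := fun ρ => (96 + 16 * C) * (50 / (c ^ 2 * (2 * ρ))) with hE
  -- finiteness of the near part
  have hfin : ∀ R : ℝ, {q : P | ‖(q : ℂ)‖ < R}.Finite := by
    intro R
    have h1 : {q : ℂ | q ∈ P ∧ ‖q‖ < R}.Finite := by
      refine hGS _ c R hc ?_ ?_
      · intro q hq q' hq' hne
        exact hL1 q hq.1 q' hq'.1 hne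
      · intro q hq
        exact hq.2.le
    refine Set.Finite.of_finite_image (f := (Subtype.val : P → ℂ)) (h1.subset ?_) Subtype.val_injective.injOn
    rintro _ ⟨q, hq, rfl⟩
    exact ⟨q.2, hq⟩
  -- the tail over P
  have htailP : ∀ ρ : ℝ, 1 ≤ ρ → c ≤ ρ → ‖x‖ ≤ ρ → ∀ S : Finset P, (∀ q ∈ S, 2 * ρ ≤ ‖(q : ℂ)‖) →
      ∑ q ∈ S, ‖F q‖ ≤ E ρ := by
    intro ρ h1 h2 h3 S hS
    exact NB2_tail hSU (fun q : P => (q : ℂ)) (fun q : P => gg q) S hc hC h1 h2 h3
      (fun i _ l _ hne => hL1 _ i.2 _ l.2 (fun h => hne (Subtype.ext h))) (fun i _ => hgg1 _ i.2) hS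
  have hsum : Summable F := by
    set ρ : ℝ := 1 + c + ‖x‖ with hρ
    have hxn := norm_nonneg x
    refine Summable.of_norm ?_
    refine summable_of_sum_le (c := ∑ q ∈ (hfin (2 * ρ)).toFinset, ‖F q‖ + E ρ) (fun q => norm_nonneg _) ?_
    intro S
    rw [← Finset.sum_filter_add_sum_filter_not S (fun q => ‖(q : ℂ)‖ < 2 * ρ)]
    refine add_le_add ?_ ?_
    · refine Finset.sum_le_sum_of_subset_of_nonneg ?_ (fun _ _ _ => norm_nonneg _)
      intro q hq
      rw [Set.Finite.mem_toFinset]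
      exact (Finset.mem_filter.mp hq).2
    · refine htailP ρ (by linarith) (by linarith) (by linarith) _ ?_
      intro q hq
      exact not_lt.mp (Finset.mem_filter.mp hq).2
  -- the key estimate
  have key : ∀ ρ : ℝ, 1 ≤ ρ → c ≤ ρ → ‖x‖ ≤ ρ → (∀ q ∈ P, ‖q‖ ≠ 2 * ρ) →
      ‖iteratedDeriv 2 B x - ∑' q, F q‖ ≤ 2 * E ρ := by
    intro ρ h1 h2 h3 h4
    set Q : Finset P := (hfin (2 * ρ)).toFinset with hQ
    have hQm : ∀ q : P, q ∈ Q ↔ ‖(q : ℂ)‖ < 2 * ρ := by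
      intro q
      rw [hQ, Set.Finite.mem_toFinset]
      rfl
    -- (1) the tail of the series
    have e1 : ‖∑' q, F q - ∑ q ∈ Q, F q‖ ≤ E ρ := by
      have ht : Tendsto (fun T : Finset P => ‖∑ q ∈ T, F q - ∑ q ∈ Q, F q‖) atTop
          (𝓝 ‖∑' q, F q - ∑ q ∈ Q, F q‖) := by
        have h5 : Tendsto (fun T : Finset P => ∑ q ∈ T, F q) atTop (𝓝 (∑' q, F q)) := hsum.hasSum
        exact (h5.sub tendsto_const_nhds).norm
      refine le_of_tendsto ht ?_
      filter_upwards [eventually_ge_atTop Q] with T hT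
      have hT' : Q ⊆ T := hT
      rw [← Finset.sum_sdiff hT', add_sub_cancel_right]
      refine (norm_sum_le _ _).trans (htailP ρ h1 h2 h3 _ ?_)
      intro q hq
      have := (Finset.mem_sdiff.mp hq).2
      rw [hQm] at this
      exact not_lt.mp this
    -- (2) the near part
    obtain ⟨lab, hlab1, hlab2⟩ := hL4 (2 * ρ) h4
    have hnear : Tendsto (fun m => ∑ q ∈ Q, NB2_T x (p m (lab q m)) (g m (lab q m))) U (𝓝 (∑ q ∈ Q, F q)) := by
      refine tendsto_finsetSum _ fun q _ => ?_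
      refine NB2_cont (hlab1 q q.2) (hgg2 (lab q) q (hlab1 q q.2)) ?_
      rintro rfl
      exact hx q.2
    have hinj : ∀ᶠ m in (U : Filter ℕ), ∀ q ∈ Q, ∀ q' ∈ Q, lab q m = lab q' m → q = q' := by
      have hcl : ∀ᶠ m in (U : Filter ℕ), ∀ q ∈ Q, ‖p m (lab q m) - q‖ < c / 2 := by
        rw [Filter.eventually_all_finset]
        intro q _
        have := (hlab1 q q.2).eventually (Metric.ball_mem_nhds (q : ℂ) (by positivity : (0 : ℝ) < c / 2))
        filter_upwards [this] with m hm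
        simpa [dist_eq_norm] using hm
      filter_upwards [hcl] with m hm q hq q' hq' heq
      by_contra hne
      have h5 := hL1 q q.2 q' q'.2 (fun h => hne (Subtype.ext h))
      have h6 := hm q hq
      have h7 := hm q' hq'
      rw [heq] at h6
      have h8 : (q : ℂ) - q' = (p m (lab q' m) - q') - (p m (lab q' m) - q) := by ring
      rw [h8] at h5
      have h9 := norm_sub_le (p m (lab q' m) - q') (p m (lab q' m) - (q : ℂ))
      linarith
    -- (3) the difference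
    have hdiff : ∀ᶠ m in (U : Filter ℕ), ‖iteratedDeriv 2 (BF (p m) (g m)) x -
        ∑ q ∈ Q, NB2_T x (p m (lab q m)) (g m (lab q m))‖ ≤ E ρ := by
      filter_upwards [hinj, hlab2, hconf.sep, hconf.hg, hδev] with m a1 a2 a3 a4 a5
      have hxp : ∀ i, x ≠ p m i := by
        intro i hi
        have := a5 i
        rw [hi, sub_self, norm_zero] at this
        linarith
      rw [NB2_second (p m) (g m) x hxp]
      rw [← Finset.sum_filter_add_sum_filter_not Finset.univ (fun i => ‖p m i‖ < 2 * ρ)]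
      have himg : Finset.univ.filter (fun i => ‖p m i‖ < 2 * ρ) = Q.image (fun q : P => lab (q : ℂ) m) := by
        ext j
        rw [Finset.mem_filter, Finset.mem_image]
        constructor
        · rintro ⟨-, hj⟩
          obtain ⟨q, hq, hqn, hjq⟩ := (a2 j).mp hj
          exact ⟨⟨q, hq⟩, (hQm _).mpr hqn, hjq.symm⟩
        · rintro ⟨q, hq, hjq⟩
          exact ⟨Finset.mem_univ _, (a2 j).mpr ⟨q, q.2, (hQm q).mp hq, hjq.symm⟩⟩
      rw [himg, Finset.sum_image (fun q hq q' hq' h => a1 q hq q' hq' h), add_sub_cancel_left]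
      refine (norm_sum_le _ _).trans (NB2_tail hSU (p m) (g m) _ hc hC h1 h2 h3
        (fun i _ l _ hne => a3 i l hne) (fun i _ => a4 i) ?_)
      intro i hi
      exact not_lt.mp (Finset.mem_filter.mp hi).2
    have e2 : ‖iteratedDeriv 2 B x - ∑ q ∈ Q, F q‖ ≤ E ρ :=
      le_of_tendsto (hlim.sub hnear).norm hdiff
    have e3 : iteratedDeriv 2 B x - ∑' q, F q = (iteratedDeriv 2 B x - ∑ q ∈ Q, F q) -
        (∑' q, F q - ∑ q ∈ Q, F q) := by ring
    rw [e3]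
    refine (norm_sub_le _ _).trans ?_
    linarith
  -- the conclusion
  have hgoal : iteratedDeriv 2 B x - ∑' q, F q = 0 := by
    rw [← norm_le_zero_iff]
    refine le_of_forall_pos_le_add fun ε hε => ?_
    rw [zero_add]
    have hcntR : (Set.image (fun q : ℂ => ‖q‖ / 2) P).Countable := hcount.image _
    have hdense := hcntR.dense_compl ℝ
    set M : ℝ := 1 + c + ‖x‖ + (96 + 16 * C) * 50 / (c ^ 2 * ε) with hM
    have hM0 : 0 ≤ (96 + 16 * C) * 50 / (c ^ 2 * ε) := by positivity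
    obtain ⟨ρ, hρ1, hρ2, hρ3⟩ := hdense.exists_between (show M < M + 1 by linarith)
    have hxn := norm_nonneg x
    have h4 : ∀ q ∈ P, ‖q‖ ≠ 2 * ρ := by
      intro q hq heq
      apply hρ1
      refine ⟨q, hq, ?_⟩
      simp only
      linarith
    refine (key ρ (by linarith) (by linarith) (by linarith) h4).trans ?_
    have hρ0 : 0 < ρ := by linarith
    have h5 : (96 + 16 * C) * 50 / (c ^ 2 * ε) ≤ ρ := by linarith
    rw [div_le_iff₀ (by positivity)] at h5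
    have h6 : 2 * E ρ = (96 + 16 * C) * 50 / (c ^ 2 * ρ) := by
      rw [hE]
      simp only
      field_simp
    rw [h6, div_le_iff₀ (by positivity)]
    linarith
  exact sub_eq_zero.mp hgoal

end V3
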